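import Mathlib
import Pool.Agent.V1141.OF.MultiMain

/-!
# Tate classes on all products of varieties, in cohomology groups of different odd degrees

Let `X i`, `i ∈ I`, be finitely many smooth projective varieties over a number field (or a finitely
generated field of characteristic zero) and let `V i` be the dual of the `ℓ`-adic cohomology of `X i`
in the odd degree `2 * e i + 1`, or of a direct summand of it on which the form `ω i` given by the hard
Lefschetz theorem and Poincaré duality is not degenerate. So `V i` carries the alternating form `ω i`,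
on which the Galois group `Γ` acts by the power `χ ^ (2 * e i + 1)` of the cyclotomic character.
Suppose that at ONE place of good reduction, with residue field of `p ^ a` elements and Frobenius
element `γ`, the characteristic polynomial of `γ` on `V i` is the product of the minimal polynomials
of numbers `π j` (`j ∈ J`, `c j = i`) that generate CM fields `K j`, such that every `π j` has pair
type, flip type or normal type (see `H194R3.Tate.Mixed` and `V1141.OF.Mix`), and any two embeddings
of different fields are cross flipped.

Then all Tate classes in all the tensor products `⨂ H ^ (2 e + 1) (X (t l))`, that is, on all products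
of copies of the varieties, are linear combinations of products of Tate classes on the products of
two of the varieties (`TateGeneratedByPairs`).

It is NOT assumed that the representations are semisimple, which is open for the cohomology of general
varieties, and the degrees may be different: for example products of abelian varieties (degree one),
Calabi-Yau threefolds (degree three), and fivefolds.
-/

set_option autoImplicit false

namespace Pool.Agent.Results.MP_021685_ag.DifferentOddDegrees

open NumberField Module IntermediateField Pool.Agent.H194R3.CM Pool.Agent.H194R3.Tate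
  Pool.Agent.V1141.OF

theorem result (ℓ p : ℕ) [Fact ℓ.Prime] [Fact p.Prime] (a : ℕ)
    -- the representations, in the degrees `2 * e i + 1`
    {I : Type} [Fintype I] [DecidableEq I] (e : I → ℕ) {V : I → Type}
    [∀ i, AddCommGroup (V i)] [∀ i, Module ℚ_[ℓ] (V i)] [∀ i, FiniteDimensional ℚ_[ℓ] (V i)]
    {Γ : Type} [Group Γ] (ρ : ∀ i, Representation ℚ_[ℓ] Γ (V i)) (χ : Γ →* ℚ_[ℓ])
    (ω : ∀ i, V i →ₗ[ℚ_[ℓ]] V i →ₗ[ℚ_[ℓ]] ℚ_[ℓ]) (halt : ∀ i, ∀ v, ω i v v = 0)
    (hnondeg : ∀ i, ∀ u, (∀ v, ω i v u = 0) → u = 0)
    (hω : ∀ i s u v, ω i (ρ i s u) (ρ i s v) = χ s ^ (2 * e i + 1) * ω i u v)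
    -- the Weil numbers
    {J : Type} [Fintype J] (c : J → I) (K : J → Type) [∀ j, Field (K j)]
    [∀ j, NumberField (K j)] [∀ j, IsCMField (K j)] (π : ∀ j, K j) (hgen : ∀ j, ℚ⟮π j⟯ = ⊤)
    (hweil : ∀ j, π j * IsCMField.complexConj (K j) (π j) =
      (p : K j) ^ (a * (2 * e (c j) + 1)))
    (hπ : ∀ j, PairType p (a * (2 * e (c j) + 1)) (π j) ∨
      FlipType p (a * (2 * e (c j) + 1)) (π j) ∨ NormalType p (a * (2 * e (c j) + 1)) (π j))
    (hcross : ∀ j j', j ≠ j' → ∀ (φ : K j →+* ℂ) (ψ : K j' →+* ℂ), CrossFlipped φ ψ)
    -- one Frobenius element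
    (γ : Γ) (hχ : χ γ = (p : ℚ_[ℓ]) ^ a)
    (hγ : ∀ i, (ρ i γ).charpoly =
      ∏ j with c j = i, (minpoly ℚ (π j)).map (algebraMap ℚ ℚ_[ℓ])) :
    TateGeneratedByPairs ρ χ e :=
  multi_of_norel ρ χ e ω halt hnondeg hω c hgen hweil γ hχ hγ
    (norel_of_normal p (fun j => a * (2 * e (c j) + 1)) π
      (fun j φ => norm_of_weil p _ (π j) (hweil j) φ) hπ hcross)

end Pool.Agent.Results.MP_021685_ag.DifferentOddDegrees
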