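import Pool.Agent.H255R.HR.Fam

/-!
# Tate classes on products of regular surfaces and on products of curves
-/

open CategoryTheory AlgebraicGeometry

universe u v w

namespace Pool.Agent.Results.MP_021685_ag.RegularSurfaces

open Pool.Agent.H914 Pool.Agent.H914.VarClass Pool.Agent.H914.VarClass.Obj Pool.Agent.W492.BB
  Pool.Agent.W550.Corr Pool.Agent.TH133 Pool.Agent.H255R.HR

/-- Consider the smooth projective varieties over a field `k`, with a cohomology with coefficients
`F` of characteristic zero and with an action of a group `Γ`. (The cases to have in mind: `k` is a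
number field or a finite field, `Γ` is its Galois group, and the cohomology is `H^*(X̄, ℚ_ℓ)`; a Tate
class is a class in `H^{2r}(X̄, ℚ_ℓ(r))` which is fixed by `Γ`, if the cycles are those over `k`, and
`𝒮 = {Γ}`; or which is fixed by an open subgroup, if the cycles are those over the closure of `k`,
and `𝒮` is the set of all open subgroups.)

Let `𝒞` be a class of curves with `HasGaloisQuotients` (all curves over a number field `k`,
with cycles over the closure of `k`; or the hyperelliptic and the elliptic curves; or one
hyperelliptic curve). For all varieties `U` and all `R` and `M` the following statements are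
equivalent.

1. The Tate conjecture holds in codimension at most `R` for the varieties `U × A` and `U × A × S`,
where `A` is a product of at most `M` regular surfaces dominated by products of two curves in `𝒞`,
and `S` is a curve in `𝒞`.
2. The same without the condition that the surfaces be regular.
3. The Tate conjecture holds in codimension at most `R` for `U × W`, where `W` is a product of at
most `2 M + 1` curves in `𝒞`.
4. The Tate conjecture holds in codimension at most `R` for all varieties which are dominated by
varieties `U × W` as in 3.

If moreover the odd cohomology of `U` vanishes (for example `U = Spec k`), the varieties `U × A`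
suffice in 1. For example, the case of codimension at most `2` on products of at most two regular
surfaces implies the case of codimension at most `2` on products of five curves (and so on abelian
varieties of dimension five). -/
theorem result {k : Type u} [Field k] {𝒱 : VarClass k} (C : TheoryData.{u, v, 0} 𝒱 ℚ)
    [IsChowProj C] {F : Type w} [Field F] [CharZero F] (H : WeilTheoryData.{u, v, w} C F)
    [IsWeilProj H] {Γ : Type} [Group Γ] (𝒮 : Set (Subgroup Γ)) (G : GaloisAction H Γ 𝒮)
    (𝒞 : 𝒱.Obj → Prop) (hG : HasGaloisQuotients H 𝒞) (U : 𝒱.Obj) (R M : ℕ) :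
    List.TFAE [
      ∀ m ≤ M, ∀ A : 𝒱.Obj, IsProdOf U (IsRegularDominated H 𝒞) m A →
        G.TateConj R A ∧ ∀ S : 𝒱.Obj, 𝒞 S → G.TateConj R (A.prod S),
      ∀ m ≤ M, ∀ A : 𝒱.Obj, IsProdOf U (IsDominatedSurface H 𝒞) m A →
        G.TateConj R A ∧ ∀ S : 𝒱.Obj, 𝒞 S → G.TateConj R (A.prod S),
      ∀ n ≤ 2 * M + 1, ∀ W : 𝒱.Obj, IsProdOf U 𝒞 n W → G.TateConj R W,
      ∀ n ≤ 2 * M + 1, ∀ W X : 𝒱.Obj, IsProdOf U 𝒞 n W → IsDominatedBy C W X →
        G.TateConj R X] ∧
    (OddVanish H U →
      ((∀ m ≤ M, ∀ A : 𝒱.Obj, IsProdOf U (IsRegularDominated H 𝒞) m A → G.TateConj R A) ↔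
        ∀ n ≤ 2 * M + 1, ∀ W : 𝒱.Obj, IsProdOf U 𝒞 n W → G.TateConj R W)) := by
  refine ⟨?_, fun hU => ?_⟩
  · exact tfae (𝓜 := G.family H) (𝓝 := algFamily H) hG U R M
  · exact iff_odd (𝓜 := G.family H) (𝓝 := algFamily H) hG hU R M

end Pool.Agent.Results.MP_021685_ag.RegularSurfaces
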