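import Pool.Agent.V1141.WT.UMain

/-!
# Tate classes on products of varieties with complex multiplication and arbitrary varieties are
generated in degree two, by Weil classes and by Tate classes of the arbitrary varieties, from one
Frobenius element

Let `X j` be smooth projective varieties over a number field (or a finite field), and suppose that a CM
field acts by correspondences on the cohomology group `H^{n j}(X j)`, in such a way that the complex
conjugation is the adjoint for the pairing with values in `ℚ_ℓ(- n j)`; for instance abelian varieties
with multiplication by an imaginary quadratic field, cyclic coverings, surfaces of K3 type with complex
multiplication. With coefficients in an algebraic closure `k` of `ℚ_ℓ` the cohomology group is the sum of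
the eigenspaces of the field; each pair of complex conjugate embeddings gives two eigenspaces which are
dual to each other up to a twist. We number all these pairs of eigenspaces, for all `X j`, by the elements
of `J`: let `V j`, `V' j` be representations of the Galois group `Γ` with perfect pairings `B j` with values
in the power `χ ^ w` of the cyclotomic character (`Piece`). Let `H` be the sum of all `V j` and `V' j`
(`Total`). The spaces `det (V j)` are the spaces of *Weil classes*; let `T` be the set of those `j` for
which they are Tate classes (`WeilClassesAreTate`).

Let `U` be **any** smooth projective variety and `M = H^b(U)` (or any representation `τ` of `Γ`).

Suppose that for ONE element `γ` of `Γ` (for instance one Frobenius element), with the eigenvalues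
`α j i` on the `V j` (`AreEigenvalues`), and for every eigenvalue `β` of `γ` on `M`, the only
multiplicative relations `∏ α j i ^ m j i = β ^ n * χ(γ) ^ c`, `n > 0`, are those for which the exponents
`m j i = d j` do not depend on `i` and are zero for `j ∉ T` (and similarly for `β = 1`). This is
`OnlyConstantRelations`. For example: the `X j` are abelian fourfolds of Weil type, and the eigenvalues
of `γ` satisfy only the relations which follow from the Weil classes.

**Theorem.** All Tate classes in all spaces `H^{⊗ N} ⊗ M` (the dual of `H` is a twist of `H`), that is, all
multilinear maps `f` in `N` variables in `H`, with values in `M`, which are fixed by a subgroup of finite
index, are linear combinations of products `ψ ⊗ u` of Tate classes `u` in `M` and of products `ψ` of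
Tate classes in two variables in `H` and of Tate classes in `dim (V j)` variables in `H`, `j ∈ T`.

So the Tate conjecture, for the parts of the cohomology of all varieties `X j₁ × ... × X j_s × U` (with
repetitions) which are generated by the groups `H^{n j}(X j)` and `H^b(U)`, follows from the Tate
conjecture for `U`, for the products of two of the `X j`, and for the Weil classes. For abelian varieties
the classes in degree two are algebraic by the theorem of Faltings, and the Weil classes on abelian
fourfolds (and on sixfolds of split Weil type) by theorems of Markman.

It is NOT assumed that the representations are semisimple or irreducible. Nothing is assumed about `M`
except for the eigenvalues of one element.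

The proof. A Tate map in `N` variables, each in some `V j` or `V' j`, contains `V j` more often than
`V' j` by a multiple `d j` of `dim (V j)`. Its product with `d j` determinants of the dual of `V j` (or
`- d j` determinants of `V j`), for all `j`, has weight zero for an additional torus, on the sum of
`V = ⨁ V j` and of its dual; the theorem on symplectic representations without semisimplicity (a tensor of
weight zero which is killed by a root vector is killed by the opposite root vector) shows that its
scalar components are generated in degree two. The values on the bases of the additional
variables, antisymmetrized, give the scalar components of the map itself, and each product of forms of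
degree two becomes a product of such forms and of determinants, with the same twist; the coefficients
are then Tate classes in `M`.
-/

set_option autoImplicit false

namespace Pool.Agent.Results.MP_021685_ag.WeilClassesTimesVarieties

open Pool.Agent.V1141.WT

/-- Tate classes are combinations of products of Tate classes of degree two, of Weil classes and of
Tate classes of an arbitrary representation, if the eigenvalues of one element satisfy only the
relations given by the Weil classes. -/
theorem result {k : Type} [Field k] [CharZero k] [IsAlgClosed k] {Γ : Type} [Group Γ]
    {χ : Γ →* k} {J : Type} [Fintype J] (P : J → Piece k χ) (T : Set J) (e : J → ℤ)
    (hT : WeilClassesAreTate P T e) {M : Type} [AddCommGroup M] [Module k M]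
    [FiniteDimensional k M] (τ : Representation k Γ M) (γ : Γ) (α : ∀ j, Fin (dm P j) → k)
    (hα : AreEigenvalues P γ α)
    (hind : ∀ β, β = 1 ∨ Module.End.HasEigenvalue (τ γ) β →
      OnlyConstantRelations T (χ γ) β α) :
    SplitIn (action P) τ χ ({2} ∪ {n | ∃ j ∈ T, n = dm P j}) :=
  umain P T e hT τ γ α hα hind

end Pool.Agent.Results.MP_021685_ag.WeilClassesTimesVarieties
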